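import Pool.Agent.H674Z.RegMain

set_option autoImplicit false

open Pool.Agent.H674Z.Reg

/-- There is no regular map from (a bounded degree graph quasi-isometric to) the hyperbolic plane
to the product of a bounded degree tree with a bounded degree graph of subexponential growth. -/
theorem Pool.Agent.Results.MP_7da865_gt.ANoRegularMap.result {V W U : Type*}
    (X : SimpleGraph V) (T : SimpleGraph W) (Y : SimpleGraph U)
    (_hXc : X.Connected) (_hXd : BddDeg X) (hX : QuasiIsomH2 X)
    (hT : T.IsTree) (hTd : BddDeg T)
    (hY : Y.Connected) (hYd : BddDeg Y) (hs : SubexpGrowth Y) :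
    ¬ ∃ f : V → W × U, IsRegularMap X (T.boxProd Y) f :=
  main X T Y hX hT hTd hY hYd hs
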